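import Pool.Agent.H42.Smm

open Cardinal Pool.Agent.H42

/-- `d = u = ℵ₁` implies `s_mm = ℵ₁`. -/
theorem Pool.Agent.Results.MP_5eed22_lc.Full.result (hd : PolD.dNum = ℵ₁) (hu : Smm.uNum = ℵ₁) :
    Smm.smm = ℵ₁ := Smm.smm_eq hd hu
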